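import Pool.Agent.W307.RT.Defs

/-! LC and COV of project RS with the hypothesis that the family of forms is not empty -/

namespace Pool.Agent.W481.RS

open Finset Pool.Agent.W262.RK Pool.Agent.W307.RT

/-- LC: the number of the integer points with `∏ |l_j (u, v)| ^ m_j ≤ V ^ d`. -/
def LC1 : Prop := ∀ (J : Type) [Fintype J] [DecidableEq J] [Nonempty J] (α β : J → ℤ) (m : J → ℕ),
  (∀ j l, j ≠ l → Res α β j l ≠ 0) → (∀ j, 1 ≤ m j) → (∀ j, 2 * m j < ∑ i, m i) →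
  ∃ C : ℕ, ∀ V : ℕ, 1 ≤ V → ∀ S : Finset (ℤ × ℤ),
    (∀ t ∈ S, (∀ j, fv α β t.1 t.2 j ≠ 0) ∧
      ∏ j, (fv α β t.1 t.2 j).natAbs ^ m j ≤ V ^ (∑ i, m i)) →
    S.card ≤ C * V ^ 2

/-- COV: from the short squares to the regions `∏ |l_j (u, v)| ^ m_j ≤ W ^ d`, `d = ∑ m_j`. -/
def COV1 : Prop := ∀ (J : Type) [Fintype J] [DecidableEq J] [Nonempty J] (α β : J → ℤ) (m : J → ℕ)
  (g : ℤ × ℤ → ℝ), (∀ j l, j ≠ l → Res α β j l ≠ 0) → (∀ j, 1 ≤ m j) →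
  (∀ j, 2 * m j < ∑ i, m i) → (∀ t, 0 ≤ g t) →
  (∀ B : ℕ, ∃ C : ℝ, ∀ (N1 N2 : ℤ) (X : ℕ), 1 ≤ X → N1.natAbs ≤ X ^ B → N2.natAbs ≤ X ^ B →
    ∑ t ∈ Icc 1 X ×ˢ Icc 1 X, g (N1 + (t.1 : ℤ), N2 + (t.2 : ℤ)) ≤ C * X ^ 2) →
  ∃ C : ℝ, 0 ≤ C ∧ ∀ W : ℕ, 1 ≤ W → ∀ S : Finset (ℤ × ℤ),
    (∀ t ∈ S, (∀ j, fv α β t.1 t.2 j ≠ 0) ∧
      ∏ j, (fv α β t.1 t.2 j).natAbs ^ m j ≤ W ^ (∑ i, m i)) →
    ∑ t ∈ S, g t ≤ C * (W : ℝ) ^ 2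

end Pool.Agent.W481.RS
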