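import Pool.Agent.W481.RS.Stm1

/-! COV: from the short squares to the regions -/

namespace Pool.Agent.W481.RS

open Finset Pool.Agent.W262.RK Pool.Agent.W307.RT

lemma root (d W : ℕ) (hd : 1 ≤ d) (hW : 1 ≤ W) :
    ∃ X : ℕ, 2 ≤ X ∧ W < X ^ d ∧ X ^ d ≤ 2 ^ d * W := by
  have hex : ∃ n : ℕ, W < n ^ d := ⟨W + 1, by
    calc W < W + 1 := Nat.lt_succ_self W
      _ = (W + 1) ^ 1 := by ring
      _ ≤ (W + 1) ^ d := Nat.pow_le_pow_right (by omega) hd⟩
  classical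
  set X := Nat.find hex with hX
  have h1 : W < X ^ d := Nat.find_spec hex
  have h2 : 2 ≤ X := by
    by_contra hlt
    have : X = 0 ∨ X = 1 := by omega
    rcases this with h | h
    · rw [h, zero_pow (by omega)] at h1; omega
    · rw [h, one_pow] at h1; omega
  have h3 : ¬ W < (X - 1) ^ d := Nat.find_min hex (by omega)
  refine ⟨X, h2, h1, ?_⟩
  calc X ^ d ≤ (2 * (X - 1)) ^ d := Nat.pow_le_pow_left (by omega) d
    _ = 2 ^ d * (X - 1) ^ d := mul_pow _ _ _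
    _ ≤ 2 ^ d * W := Nat.mul_le_mul_left _ (by omega)

section
variable {J : Type} {α β : J → ℤ} {A : ℕ}

lemma rec1 (hA' : ∀ j, |α j| + |β j| ≤ A) {i j : J} (hR : Res α β i j ≠ 0) (u v : ℤ) :
    |u| ≤ A * (|fv α β u v i| + |fv α β u v j|) ∧ |v| ≤ A * (|fv α β u v i| + |fv α β u v j|) := by
  have hA : ∀ j, |α j| ≤ A ∧ |β j| ≤ A := fun j =>
    ⟨by have := hA' j; have := abs_nonneg (β j); omega,
      by have := hA' j; have := abs_nonneg (α j); omega⟩
  have h1 : β j * fv α β u v i - β i * fv α β u v j = Res α β i j * u := by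
    simp only [fv, Res]; ring
  have h2 : α i * fv α β u v j - α j * fv α β u v i = Res α β i j * v := by
    simp only [fv, Res]; ring
  have hR1 : 1 ≤ |Res α β i j| := Int.one_le_abs hR
  have e1 := abs_nonneg (fv α β u v i)
  have e2 := abs_nonneg (fv α β u v j)
  constructor
  · calc |u| ≤ |Res α β i j| * |u| := le_mul_of_one_le_left (abs_nonneg _) hR1
      _ = |β j * fv α β u v i - β i * fv α β u v j| := by rw [h1, abs_mul]
      _ ≤ |β j * fv α β u v i| + |β i * fv α β u v j| := abs_sub _ _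
      _ = |β j| * |fv α β u v i| + |β i| * |fv α β u v j| := by rw [abs_mul, abs_mul]
      _ ≤ A * |fv α β u v i| + A * |fv α β u v j| :=
          add_le_add (mul_le_mul_of_nonneg_right (hA j).2 e1)
            (mul_le_mul_of_nonneg_right (hA i).2 e2)
      _ = _ := by ring
  · calc |v| ≤ |Res α β i j| * |v| := le_mul_of_one_le_left (abs_nonneg _) hR1
      _ = |α i * fv α β u v j - α j * fv α β u v i| := by rw [h2, abs_mul]
      _ ≤ |α i * fv α β u v j| + |α j * fv α β u v i| := abs_sub _ _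
      _ = |α i| * |fv α β u v j| + |α j| * |fv α β u v i| := by rw [abs_mul, abs_mul]
      _ ≤ A * |fv α β u v j| + A * |fv α β u v i| :=
          add_le_add (mul_le_mul_of_nonneg_right (hA i).1 e2)
            (mul_le_mul_of_nonneg_right (hA j).1 e1)
      _ = _ := by ring

/-- the value at a point of the square is close to the value at the base point -/
lemma near (hA : ∀ j, |α j| + |β j| ≤ A) (X : ℕ) (j : J) (q1 q2 r1 r2 : ℤ)
    (h1 : 1 ≤ r1 ∧ r1 ≤ X) (h2 : 1 ≤ r2 ∧ r2 ≤ X) :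
    X * |fv α β q1 q2 j| ≤ |fv α β (X * q1 + r1) (X * q2 + r2) j| + A * X := by
  have e : (X : ℤ) * fv α β q1 q2 j =
      fv α β (X * q1 + r1) (X * q2 + r2) j - fv α β r1 r2 j := by
    simp only [fv]; ring
  have hr1 : |r1| ≤ X := by rw [abs_of_nonneg (by omega)]; exact h1.2
  have hr2 : |r2| ≤ X := by rw [abs_of_nonneg (by omega)]; exact h2.2
  have hb : |fv α β r1 r2 j| ≤ A * X := by
    calc |fv α β r1 r2 j| ≤ |α j * r1| + |β j * r2| := abs_add_le _ _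
      _ = |α j| * |r1| + |β j| * |r2| := by rw [abs_mul, abs_mul]
      _ ≤ |α j| * X + |β j| * X :=
          add_le_add (mul_le_mul_of_nonneg_left hr1 (abs_nonneg _))
            (mul_le_mul_of_nonneg_left hr2 (abs_nonneg _))
      _ = (|α j| + |β j|) * X := by ring
      _ ≤ A * X := mul_le_mul_of_nonneg_right (hA j) (by positivity)
  calc (X : ℤ) * |fv α β q1 q2 j| = |(X : ℤ) * fv α β q1 q2 j| := by
        rw [abs_mul, Nat.abs_cast]
    _ = |fv α β (X * q1 + r1) (X * q2 + r2) j - fv α β r1 r2 j| := by rw [e]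
    _ ≤ |fv α β (X * q1 + r1) (X * q2 + r2) j| + |fv α β r1 r2 j| := abs_sub _ _
    _ ≤ _ := by linarith

lemma low (hA : ∀ j, |α j| + |β j| ≤ A) (X : ℕ) (j : J) (q1 q2 r1 r2 : ℤ)
    (h1 : 1 ≤ r1 ∧ r1 ≤ X) (h2 : 1 ≤ r2 ∧ r2 ≤ X) (hq : 2 * (A : ℤ) ≤ |fv α β q1 q2 j|) :
    X * |fv α β q1 q2 j| ≤ 2 * |fv α β (X * q1 + r1) (X * q2 + r2) j| := by
  have := near hA X j q1 q2 r1 r2 h1 h2
  have h3 : (X : ℤ) * (2 * A) ≤ X * |fv α β q1 q2 j| :=
    mul_le_mul_of_nonneg_left hq (by positivity)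
  nlinarith

lemma lowN (hA : ∀ j, |α j| + |β j| ≤ A) (X : ℕ) (j : J) (q1 q2 r1 r2 : ℤ)
    (h1 : 1 ≤ r1 ∧ r1 ≤ X) (h2 : 1 ≤ r2 ∧ r2 ≤ X) (hq : 2 * (A : ℤ) ≤ |fv α β q1 q2 j|) :
    X * (fv α β q1 q2 j).natAbs ≤ 2 * (fv α β (X * q1 + r1) (X * q2 + r2) j).natAbs := by
  have := low hA X j q1 q2 r1 r2 h1 h2 hq
  zify
  exact this

/-- the number of the points of a strip -/
lemma strip (j : J) (hj : α j ≠ 0 ∨ β j ≠ 0) (M R : ℕ) (Q : Finset (ℤ × ℤ))
    (hQ : ∀ q ∈ Q, |fv α β q.1 q.2 j| ≤ M ∧ |q.1| ≤ R ∧ |q.2| ≤ R) :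
    Q.card ≤ (2 * M + 1) * (2 * R + 1) := by
  have hc : ∀ N : ℕ, (Icc (-(N : ℤ)) N).card = 2 * N + 1 := by
    intro N; rw [Int.card_Icc]; omega
  rcases hj with h | h
  · have hinj : Set.InjOn (fun q : ℤ × ℤ => (fv α β q.1 q.2 j, q.2)) Q := by
      intro p _ q _ hpq
      simp only [Prod.mk.injEq, fv] at hpq
      obtain ⟨h1, h2⟩ := hpq
      rw [h2] at h1
      have : p.1 = q.1 := mul_left_cancel₀ h (by linarith)
      exact Prod.ext this h2
    calc Q.card ≤ ((Icc (-(M : ℤ)) M) ×ˢ (Icc (-(R : ℤ)) R)).card := by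
          apply Finset.card_le_card_of_injOn _ _ hinj
          intro q hq
          obtain ⟨a, b, c⟩ := hQ q hq
          simp only [coe_product, Set.mem_prod, coe_Icc, Set.mem_Icc]
          exact ⟨abs_le.mp a, abs_le.mp c⟩
      _ = _ := by rw [card_product, hc, hc]
  · have hinj : Set.InjOn (fun q : ℤ × ℤ => (fv α β q.1 q.2 j, q.1)) Q := by
      intro p _ q _ hpq
      simp only [Prod.mk.injEq, fv] at hpq
      obtain ⟨h1, h2⟩ := hpq
      rw [h2] at h1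
      have : p.2 = q.2 := mul_left_cancel₀ h (by linarith)
      exact Prod.ext h2 this
    calc Q.card ≤ ((Icc (-(M : ℤ)) M) ×ˢ (Icc (-(R : ℤ)) R)).card := by
          apply Finset.card_le_card_of_injOn _ _ hinj
          intro q hq
          obtain ⟨a, b, c⟩ := hQ q hq
          simp only [coe_product, Set.mem_prod, coe_Icc, Set.mem_Icc]
          exact ⟨abs_le.mp a, abs_le.mp b⟩
      _ = _ := by rw [card_product, hc, hc]

end

section
variable {J : Type} [Fintype J] [DecidableEq J] {α β : J → ℤ} {A : ℕ} {m : J → ℕ}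

/-- case 1: all the values at the base point are large -/
lemma case1 (hA : ∀ j, |α j| + |β j| ≤ A) (X W V : ℕ) (hV : 2 * W ≤ V * X) (hX : 1 ≤ X)
    (q1 q2 r1 r2 : ℤ) (h1 : 1 ≤ r1 ∧ r1 ≤ X) (h2 : 1 ≤ r2 ∧ r2 ≤ X)
    (hq : ∀ j, 2 * (A : ℤ) ≤ |fv α β q1 q2 j|)
    (ht : ∏ j, (fv α β (X * q1 + r1) (X * q2 + r2) j).natAbs ^ m j ≤ W ^ (∑ i, m i)) :
    ∏ j, (fv α β q1 q2 j).natAbs ^ m j ≤ V ^ (∑ i, m i) := by
  have h : X ^ (∑ i, m i) * ∏ j, (fv α β q1 q2 j).natAbs ^ m j ≤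
      X ^ (∑ i, m i) * V ^ (∑ i, m i) := by
    calc X ^ (∑ i, m i) * ∏ j, (fv α β q1 q2 j).natAbs ^ m j
        = ∏ j, (X * (fv α β q1 q2 j).natAbs) ^ m j := by
          rw [← Finset.prod_pow_eq_pow_sum, ← Finset.prod_mul_distrib]
          exact Finset.prod_congr rfl fun j _ => (mul_pow _ _ _).symm
      _ ≤ ∏ j, (2 * (fv α β (X * q1 + r1) (X * q2 + r2) j).natAbs) ^ m j :=
          Finset.prod_le_prod' fun j _ =>
            Nat.pow_le_pow_left (lowN hA X j q1 q2 r1 r2 h1 h2 (hq j)) _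
      _ = 2 ^ (∑ i, m i) * ∏ j, (fv α β (X * q1 + r1) (X * q2 + r2) j).natAbs ^ m j := by
          rw [← Finset.prod_pow_eq_pow_sum, ← Finset.prod_mul_distrib]
          exact Finset.prod_congr rfl fun j _ => mul_pow _ _ _
      _ ≤ 2 ^ (∑ i, m i) * W ^ (∑ i, m i) := Nat.mul_le_mul_left _ ht
      _ = (2 * W) ^ (∑ i, m i) := (mul_pow _ _ _).symm
      _ ≤ (V * X) ^ (∑ i, m i) := Nat.pow_le_pow_left hV _
      _ = _ := by rw [mul_pow, mul_comm]
  exact Nat.le_of_mul_le_mul_left h (by positivity)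

/-- case 2: one value at the base point is small -/
lemma case2 (hA : ∀ j, |α j| + |β j| ≤ A) (hA1 : 1 ≤ A) (hR : ∀ j l, j ≠ l → Res α β j l ≠ 0)
    (hm : ∀ j, 1 ≤ m j) (hm2 : ∀ j, 2 * m j < ∑ i, m i)
    (X W : ℕ) (hX : 1 ≤ X) (hW : 1 ≤ W) (hXW : X ^ (∑ i, m i) ≤ 2 ^ (∑ i, m i) * W)
    (q1 q2 r1 r2 : ℤ) (h1 : 1 ≤ r1 ∧ r1 ≤ X) (h2 : 1 ≤ r2 ∧ r2 ≤ X) (i : J)
    (hq : |fv α β q1 q2 i| ≤ 2 * (A : ℤ))
    (ht0 : ∀ j, fv α β (X * q1 + r1) (X * q2 + r2) j ≠ 0)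
    (ht : ∏ j, (fv α β (X * q1 + r1) (X * q2 + r2) j).natAbs ^ m j ≤ W ^ (∑ i, m i))
    (R : ℕ) (hR1 : (R : ℤ) ≤ max |q1| |q2|) : X * (X * R) ≤ 16 * A ^ 2 * W ^ 2 := by
  have hd : 1 ≤ ∑ i, m i := by have := hm2 i; omega
  have hX2W : X ≤ 2 * W := by
    have : X ^ (∑ i, m i) ≤ (2 * W) ^ (∑ i, m i) := by
      rw [mul_pow]
      refine hXW.trans (Nat.mul_le_mul_left _ ?_)
      calc W = W ^ 1 := (pow_one W).symm
        _ ≤ W ^ (∑ i, m i) := Nat.pow_le_pow_right hW hd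
    exact (Nat.pow_le_pow_iff_left (by omega)).mp this
  by_cases hsm : R < 4 * A ^ 2
  · calc X * (X * R) ≤ (2 * W) * ((2 * W) * (4 * A ^ 2)) := by gcongr
      _ = _ := by ring
  push Not at hsm
  set e := ∑ j ∈ univ.erase i, m j with he
  have hde : m i + e = ∑ i, m i := Finset.add_sum_erase _ _ (mem_univ i)
  have hme : m i + 1 ≤ e := by have := hm2 i; omega
  have key : ∀ j, j ≠ i →
      X * R ≤ 4 * A * (fv α β (X * q1 + r1) (X * q2 + r2) j).natAbs := by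
    intro j hj
    obtain ⟨a1, a2⟩ := rec1 hA (hR i j (Ne.symm hj)) q1 q2
    have a3 : (R : ℤ) ≤ A * (|fv α β q1 q2 i| + |fv α β q1 q2 j|) :=
      hR1.trans (max_le a1 a2)
    have hsm' : (4 : ℤ) * A ^ 2 ≤ R := by exact_mod_cast hsm
    have hA0 : (0 : ℤ) < A := by exact_mod_cast hA1
    have a4 : (A : ℤ) * |fv α β q1 q2 i| ≤ A * (2 * A) :=
      mul_le_mul_of_nonneg_left hq hA0.le
    have a5 : (R : ℤ) ≤ 2 * A * |fv α β q1 q2 j| := by nlinarith
    have a6 : 2 * (A : ℤ) ≤ |fv α β q1 q2 j| := by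
      have : (2 * A : ℤ) * (2 * A) ≤ 2 * A * |fv α β q1 q2 j| := by nlinarith
      exact le_of_mul_le_mul_left this (by positivity)
    have a7 := low hA X j q1 q2 r1 r2 h1 h2 a6
    zify
    calc (X : ℤ) * R ≤ X * (2 * A * |fv α β q1 q2 j|) :=
          mul_le_mul_of_nonneg_left a5 (by positivity)
      _ = 2 * A * (X * |fv α β q1 q2 j|) := by ring
      _ ≤ 2 * A * (2 * |fv α β (X * q1 + r1) (X * q2 + r2) j|) :=
          mul_le_mul_of_nonneg_left a7 (by positivity)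
      _ = _ := by ring
  have hpow : (X * R) ^ e ≤ (4 * A) ^ e * W ^ (∑ i, m i) := by
    calc (X * R) ^ e = ∏ j ∈ univ.erase i, (X * R) ^ m j :=
          (Finset.prod_pow_eq_pow_sum _ _ _).symm
      _ ≤ ∏ j ∈ univ.erase i,
            (4 * A * (fv α β (X * q1 + r1) (X * q2 + r2) j).natAbs) ^ m j :=
          Finset.prod_le_prod' fun j hj =>
            Nat.pow_le_pow_left (key j (Finset.ne_of_mem_erase hj)) _
      _ = (4 * A) ^ e * ∏ j ∈ univ.erase i,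
            (fv α β (X * q1 + r1) (X * q2 + r2) j).natAbs ^ m j := by
          rw [he, ← Finset.prod_pow_eq_pow_sum, ← Finset.prod_mul_distrib]
          exact Finset.prod_congr rfl fun j _ => mul_pow _ _ _
      _ ≤ (4 * A) ^ e * ∏ j,
            (fv α β (X * q1 + r1) (X * q2 + r2) j).natAbs ^ m j := by
          refine Nat.mul_le_mul_left _ ?_
          rw [← Finset.mul_prod_erase univ _ (mem_univ i)]
          refine Nat.le_mul_of_pos_left _ ?_
          have : 0 < (fv α β (X * q1 + r1) (X * q2 + r2) i).natAbs :=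
            Int.natAbs_pos.mpr (ht0 i)
          positivity
      _ ≤ _ := Nat.mul_le_mul_left _ ht
  have hXe : X ^ e ≤ 4 ^ e * W := by
    calc X ^ e ≤ X ^ (∑ i, m i) := Nat.pow_le_pow_right hX (by omega)
      _ ≤ 2 ^ (∑ i, m i) * W := hXW
      _ ≤ 2 ^ (2 * e) * W := Nat.mul_le_mul_right _ (Nat.pow_le_pow_right (by norm_num) (by omega))
      _ = 4 ^ e * W := by rw [pow_mul]; norm_num
  have hfin : (X * (X * R)) ^ e ≤ (16 * A * W ^ 2) ^ e := by
    calc (X * (X * R)) ^ e = X ^ e * (X * R) ^ e := mul_pow _ _ _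
      _ ≤ (4 ^ e * W) * ((4 * A) ^ e * W ^ (∑ i, m i)) := Nat.mul_le_mul hXe hpow
      _ = (16 * A) ^ e * W ^ (∑ i, m i + 1) := by
          rw [show 16 * A = 4 * (4 * A) by ring, mul_pow 4 (4 * A), pow_succ]; ring
      _ ≤ (16 * A) ^ e * W ^ (2 * e) :=
          Nat.mul_le_mul_left _ (Nat.pow_le_pow_right hW (by omega))
      _ = _ := by rw [pow_mul, ← mul_pow]
  have := (Nat.pow_le_pow_iff_left (by omega : e ≠ 0)).mp hfin
  calc X * (X * R) ≤ 16 * A * W ^ 2 := this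
    _ ≤ 16 * A ^ 2 * W ^ 2 := by
        have : A ≤ A ^ 2 := by nlinarith
        gcongr

/-- the base point of the square of `t` -/
def kap (X : ℕ) (t : ℤ × ℤ) : ℤ × ℤ := ((t.1 - 1) / X, (t.2 - 1) / X)

omit [Fintype J] [DecidableEq J] in
lemma kap_spec (X : ℕ) (hX : 1 ≤ X) (t : ℤ × ℤ) : ∃ r1 r2 : ℤ, (1 ≤ r1 ∧ r1 ≤ X) ∧
    (1 ≤ r2 ∧ r2 ≤ X) ∧ t.1 = X * (kap X t).1 + r1 ∧ t.2 = X * (kap X t).2 + r2 := by
  have hX' : (0 : ℤ) < X := by exact_mod_cast hX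
  refine ⟨(t.1 - 1) % X + 1, (t.2 - 1) % X + 1, ?_, ?_, ?_, ?_⟩
  · have := Int.emod_nonneg (t.1 - 1) hX'.ne'
    have := Int.emod_lt_of_pos (t.1 - 1) hX'
    omega
  · have := Int.emod_nonneg (t.2 - 1) hX'.ne'
    have := Int.emod_lt_of_pos (t.2 - 1) hX'
    omega
  · have := Int.mul_ediv_add_emod (t.1 - 1) X
    simp only [kap]; linarith
  · have := Int.mul_ediv_add_emod (t.2 - 1) X
    simp only [kap]; linarith

/-- the sum over the points of one square -/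
lemma fib (g : ℤ × ℤ → ℝ) (hg : ∀ t, 0 ≤ g t) (X : ℕ) (hX : 1 ≤ X) (S : Finset (ℤ × ℤ))
    (q : ℤ × ℤ) :
    ∑ t ∈ S.filter (fun t => kap X t = q), g t ≤
      ∑ t ∈ Icc 1 X ×ˢ Icc 1 X, g (X * q.1 + (t.1 : ℤ), X * q.2 + (t.2 : ℤ)) := by
  have hinj : Set.InjOn (fun t : ℕ × ℕ => ((X * q.1 + (t.1 : ℤ), X * q.2 + (t.2 : ℤ)) : ℤ × ℤ))
      ((Icc 1 X ×ˢ Icc 1 X : Finset (ℕ × ℕ)) : Set (ℕ × ℕ)) := by
    intro a _ b _ hab
    simp only [Prod.mk.injEq] at hab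
    exact Prod.ext (by omega) (by omega)
  rw [← Finset.sum_image hinj]
  refine Finset.sum_le_sum_of_subset_of_nonneg ?_ (fun t _ _ => hg t)
  intro t ht
  rw [mem_filter] at ht
  obtain ⟨r1, r2, h1, h2, e1, e2⟩ := kap_spec X hX t
  rw [ht.2] at e1 e2
  rw [mem_image]
  refine ⟨(r1.toNat, r2.toNat), ?_, ?_⟩
  · simp only [mem_product, mem_Icc]; omega
  · have a1 : ((r1.toNat : ℕ) : ℤ) = r1 := Int.toNat_of_nonneg (by omega)
    have a2 : ((r2.toNat : ℕ) : ℤ) = r2 := Int.toNat_of_nonneg (by omega)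
    simp only [a1, a2]
    exact Prod.ext e1.symm e2.symm

/-- the number of the squares -/
lemma count (C1 : ℕ) (hA : ∀ j, |α j| + |β j| ≤ A) (hA1 : 1 ≤ A)
    (hR : ∀ j l, j ≠ l → Res α β j l ≠ 0)
    (hm : ∀ j, 1 ≤ m j) (hm2 : ∀ j, 2 * m j < ∑ i, m i) (hab : ∀ j, α j ≠ 0 ∨ β j ≠ 0)
    (hC1 : ∀ V : ℕ, 1 ≤ V → ∀ S : Finset (ℤ × ℤ),
      (∀ t ∈ S, (∀ j, fv α β t.1 t.2 j ≠ 0) ∧
        ∏ j, (fv α β t.1 t.2 j).natAbs ^ m j ≤ V ^ (∑ i, m i)) → S.card ≤ C1 * V ^ 2)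
    (X W : ℕ) (hX : 1 ≤ X) (hW : 1 ≤ W) (hX2W : X ≤ 2 * W)
    (hXW : X ^ (∑ i, m i) ≤ 2 ^ (∑ i, m i) * W)
    (S : Finset (ℤ × ℤ))
    (hS : ∀ t ∈ S, (∀ j, fv α β t.1 t.2 j ≠ 0) ∧
      ∏ j, (fv α β t.1 t.2 j).natAbs ^ m j ≤ W ^ (∑ i, m i)) :
    (S.image (kap X)).card * X ^ 2 ≤
      (16 * C1 + Fintype.card J * ((4 * A + 1) * (36 * A ^ 2))) * W ^ 2 := by
  classical
  set Q := S.image (kap X) with hQ
  set Q1 := Q.filter (fun q => ∀ j, 2 * (A : ℤ) ≤ |fv α β q.1 q.2 j|) with hQ1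
  set Q2 : J → Finset (ℤ × ℤ) := fun i => Q.filter (fun q => |fv α β q.1 q.2 i| ≤ 2 * (A : ℤ))
    with hQ2
  have hcov : Q ⊆ Q1 ∪ univ.biUnion Q2 := by
    intro q hq
    by_cases hall : ∀ j, 2 * (A : ℤ) ≤ |fv α β q.1 q.2 j|
    · exact mem_union_left _ (mem_filter.mpr ⟨hq, hall⟩)
    · push Not at hall
      obtain ⟨i, hi⟩ := hall
      exact mem_union_right _ (mem_biUnion.mpr ⟨i, mem_univ i, mem_filter.mpr ⟨hq, hi.le⟩⟩)
  have hcard : Q.card ≤ Q1.card + ∑ i, (Q2 i).card :=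
    (card_le_card hcov).trans ((card_union_le _ _).trans
      (Nat.add_le_add_left card_biUnion_le _))
  have hX' : (0 : ℤ) < X := by exact_mod_cast hX
  -- case 1
  have c1 : Q1.card * X ^ 2 ≤ 16 * C1 * W ^ 2 := by
    set V := 2 * W / X + 1 with hV
    have hV1 : 2 * W ≤ V * X := by
      have := Nat.lt_div_mul_add (a := 2 * W) (b := X) (by omega)
      rw [hV, add_mul, one_mul]; omega
    have hV2 : V * X ≤ 4 * W := by
      have := Nat.div_mul_le_self (2 * W) X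
      rw [hV, add_mul, one_mul]; omega
    have h1 : Q1.card ≤ C1 * V ^ 2 := by
      refine hC1 V (Nat.succ_pos _) Q1 (fun q hq => ?_)
      rw [hQ1, mem_filter] at hq
      obtain ⟨hqQ, hq2⟩ := hq
      rw [hQ, mem_image] at hqQ
      obtain ⟨t, htS, rfl⟩ := hqQ
      obtain ⟨r1, r2, b1, b2, e1, e2⟩ := kap_spec X hX t
      have hS' := (hS t htS).2
      rw [e1, e2] at hS'
      refine ⟨fun j h0 => ?_, case1 hA X W V hV1 hX _ _ r1 r2 b1 b2 hq2 hS'⟩
      have := hq2 j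
      rw [h0, abs_zero] at this
      omega
    calc Q1.card * X ^ 2 ≤ C1 * V ^ 2 * X ^ 2 := Nat.mul_le_mul_right _ h1
      _ = C1 * (V * X) ^ 2 := by ring
      _ ≤ C1 * (4 * W) ^ 2 := Nat.mul_le_mul_left _ (Nat.pow_le_pow_left hV2 2)
      _ = _ := by ring
  -- case 2
  have c2 : ∀ i, (Q2 i).card * X ^ 2 ≤ (4 * A + 1) * (36 * A ^ 2) * W ^ 2 := by
    intro i
    set R0 := 16 * A ^ 2 * W ^ 2 / X ^ 2 with hR0
    have h1 : (Q2 i).card ≤ (2 * (2 * A) + 1) * (2 * R0 + 1) := by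
      refine strip (α := α) (β := β) i (hab i) (2 * A) R0 (Q2 i) (fun q hq => ?_)
      rw [hQ2] at hq
      simp only [mem_filter] at hq
      obtain ⟨hqQ, hq2⟩ := hq
      rw [hQ, mem_image] at hqQ
      obtain ⟨t, htS, rfl⟩ := hqQ
      obtain ⟨r1, r2, b1, b2, e1, e2⟩ := kap_spec X hX t
      obtain ⟨hS0, hS'⟩ := hS t htS
      rw [e1, e2] at hS' hS0
      have := case2 hA hA1 hR hm hm2 X W hX hW hXW _ _ r1 r2 b1 b2 i hq2 hS0 hS'
        (max (kap X t).1.natAbs (kap X t).2.natAbs) (by push_cast; simp)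
      have hle : max (kap X t).1.natAbs (kap X t).2.natAbs ≤ R0 := by
        rw [hR0, Nat.le_div_iff_mul_le (by positivity)]
        calc _ = X * (X * max (kap X t).1.natAbs (kap X t).2.natAbs) := by ring
          _ ≤ _ := this
      refine ⟨by push_cast; exact hq2, ?_, ?_⟩
      · have h' := (le_max_left _ _).trans hle
        zify at h'; exact h'
      · have h' := (le_max_right _ _).trans hle
        zify at h'; exact h'
    have h2 : R0 * X ^ 2 ≤ 16 * A ^ 2 * W ^ 2 := Nat.div_mul_le_self _ _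
    have h3 : X ^ 2 ≤ 4 * A ^ 2 * W ^ 2 := by
      calc X ^ 2 ≤ (2 * W) ^ 2 := Nat.pow_le_pow_left hX2W 2
        _ = 4 * 1 * W ^ 2 := by ring
        _ ≤ 4 * A ^ 2 * W ^ 2 := by
          have : 1 ≤ A ^ 2 := Nat.one_le_pow _ _ hA1
          gcongr
    calc (Q2 i).card * X ^ 2 ≤ (2 * (2 * A) + 1) * (2 * R0 + 1) * X ^ 2 :=
          Nat.mul_le_mul_right _ h1
      _ = (4 * A + 1) * (2 * (R0 * X ^ 2) + X ^ 2) := by ring
      _ ≤ (4 * A + 1) * (2 * (16 * A ^ 2 * W ^ 2) + 4 * A ^ 2 * W ^ 2) := by gcongr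
      _ = _ := by ring
  calc Q.card * X ^ 2 ≤ (Q1.card + ∑ i, (Q2 i).card) * X ^ 2 := Nat.mul_le_mul_right _ hcard
    _ = Q1.card * X ^ 2 + ∑ i, (Q2 i).card * X ^ 2 := by rw [add_mul, Finset.sum_mul]
    _ ≤ 16 * C1 * W ^ 2 + ∑ _i : J, (4 * A + 1) * (36 * A ^ 2) * W ^ 2 :=
        Nat.add_le_add c1 (Finset.sum_le_sum fun i _ => c2 i)
    _ = _ := by
        rw [Finset.sum_const, card_univ, smul_eq_mul]; ring

end

/-- COV -/
theorem cov_of (h : LC1) : COV1 := by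
  intro J _ _ _ α β m g hR hm hm2 hg0 hg
  obtain ⟨C1, hC1⟩ := h J α β m hR hm hm2
  -- another index
  have hother : ∀ i : J, ∃ j, i ≠ j := by
    intro i
    by_contra hcon
    push Not at hcon
    have h1 : ∑ l, m l = m i := by
      rw [Finset.sum_eq_single i (fun b _ hb => absurd (hcon b).symm hb)
        (fun hi => absurd (mem_univ i) hi)]
    have := hm2 i
    omega
  have hab : ∀ j, α j ≠ 0 ∨ β j ≠ 0 := by
    intro j
    by_contra hcon
    push Not at hcon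
    obtain ⟨l, hl⟩ := hother j
    apply hR j l hl
    simp [Res, hcon.1, hcon.2]
  set A : ℕ := 1 + ∑ j, ((α j).natAbs + (β j).natAbs) with hAdef
  have hA1 : 1 ≤ A := by omega
  have hA : ∀ j, |α j| + |β j| ≤ A := by
    intro j
    have : (α j).natAbs + (β j).natAbs ≤ ∑ j, ((α j).natAbs + (β j).natAbs) :=
      Finset.single_le_sum (f := fun j => (α j).natAbs + (β j).natAbs)
        (fun _ _ => Nat.zero_le _) (mem_univ j)
    have h2 : (α j).natAbs + (β j).natAbs ≤ A := by omega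
    zify at h2
    exact h2
  set d := ∑ i, m i with hd
  obtain ⟨i0⟩ : Nonempty J := inferInstance
  have hd1 : 1 ≤ d := by have := hm2 i0; omega
  obtain ⟨CB, hCB⟩ := hg (3 * A + d ^ 2)
  set C2 : ℕ := 16 * C1 + Fintype.card J * ((4 * A + 1) * (36 * A ^ 2)) with hC2
  refine ⟨|CB| * C2, by positivity, fun W hW S hS => ?_⟩
  obtain ⟨X, hX2, hWX, hXW⟩ := root d W hd1 hW
  have hX1 : 1 ≤ X := by omega
  have hX2W : X ≤ 2 * W := by
    have : X ^ d ≤ (2 * W) ^ d := by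
      rw [mul_pow]
      refine hXW.trans (Nat.mul_le_mul_left _ ?_)
      calc W = W ^ 1 := (pow_one W).symm
        _ ≤ W ^ d := Nat.pow_le_pow_right hW hd1
    exact (Nat.pow_le_pow_iff_left (by omega)).mp this
  have hcount := count C1 hA hA1 hR hm hm2 hab hC1 X W hX1 hW hX2W hXW S hS
  -- the base points
  have hbase : ∀ q ∈ S.image (kap X), (X * q.1).natAbs ≤ X ^ (3 * A + d ^ 2) ∧
      (X * q.2).natAbs ≤ X ^ (3 * A + d ^ 2) := by
    intro q hq
    rw [mem_image] at hq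
    obtain ⟨t, htS, rfl⟩ := hq
    obtain ⟨r1, r2, b1, b2, e1, e2⟩ := kap_spec X hX1 t
    obtain ⟨hS0, hS'⟩ := hS t htS
    have hval : ∀ j, (fv α β t.1 t.2 j).natAbs ≤ X ^ (d ^ 2) := by
      intro j
      have hpos : ∀ l, 0 < (fv α β t.1 t.2 l).natAbs := fun l => Int.natAbs_pos.mpr (hS0 l)
      calc (fv α β t.1 t.2 j).natAbs = (fv α β t.1 t.2 j).natAbs ^ 1 := (pow_one _).symm
        _ ≤ (fv α β t.1 t.2 j).natAbs ^ m j := Nat.pow_le_pow_right (hpos j) (hm j)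
        _ ≤ ∏ l, (fv α β t.1 t.2 l).natAbs ^ m l := by
            rw [← Finset.mul_prod_erase univ _ (mem_univ j)]
            exact Nat.le_mul_of_pos_right _
              (Finset.prod_pos fun l _ => Nat.pow_pos (hpos l))
        _ ≤ W ^ d := hS'
        _ ≤ (X ^ d) ^ d := Nat.pow_le_pow_left hWX.le d
        _ = X ^ (d ^ 2) := by rw [← pow_mul, sq]
    have hval' : ∀ j, |fv α β t.1 t.2 j| ≤ (X : ℤ) ^ (d ^ 2) := by
      intro j
      have := hval j
      zify at this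
      exact this
    obtain ⟨i, hi⟩ := hother i0
    obtain ⟨a1, a2⟩ := rec1 hA (hR i0 i hi) t.1 t.2
    have hP1 : (X : ℤ) ≤ (X : ℤ) ^ (d ^ 2) := by
      calc (X : ℤ) = (X : ℤ) ^ 1 := (pow_one _).symm
        _ ≤ (X : ℤ) ^ (d ^ 2) := by
          apply pow_le_pow_right₀ (by exact_mod_cast hX1)
          exact Nat.one_le_pow _ _ hd1
    have hA0 : (1 : ℤ) ≤ A := by exact_mod_cast hA1
    have hbig : 3 * (A : ℤ) * (X : ℤ) ^ (d ^ 2) ≤ (X : ℤ) ^ (3 * A + d ^ 2) := by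
      rw [pow_add]
      refine mul_le_mul_of_nonneg_right ?_ (by positivity)
      have h1 : 3 * A ≤ X ^ (3 * A) := by
        calc 3 * A ≤ 2 ^ (3 * A) := Nat.lt_two_pow_self.le
          _ ≤ X ^ (3 * A) := Nat.pow_le_pow_left hX2 _
      exact_mod_cast h1
    have hsum : (A : ℤ) * (|fv α β t.1 t.2 i0| + |fv α β t.1 t.2 i|) ≤
        A * (2 * (X : ℤ) ^ (d ^ 2)) := by
      refine mul_le_mul_of_nonneg_left ?_ (by omega)
      have := hval' i0
      have := hval' i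
      linarith
    have hXA : (X : ℤ) ≤ A * (X : ℤ) ^ (d ^ 2) :=
      hP1.trans (le_mul_of_one_le_left (by positivity) hA0)
    constructor
    · have h3 : |(X : ℤ) * (kap X t).1| ≤ (X : ℤ) ^ (3 * A + d ^ 2) := by
        have h4 : (X : ℤ) * (kap X t).1 = t.1 - r1 := by linarith
        rw [h4]
        calc |t.1 - r1| ≤ |t.1| + |r1| := abs_sub _ _
          _ ≤ A * (2 * (X : ℤ) ^ (d ^ 2)) + X := by
            refine add_le_add (a1.trans hsum) ?_
            rw [abs_of_nonneg (by omega)]; exact b1.2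
          _ ≤ 3 * (A : ℤ) * (X : ℤ) ^ (d ^ 2) := by linarith
          _ ≤ _ := hbig
      zify
      exact h3
    · have h3 : |(X : ℤ) * (kap X t).2| ≤ (X : ℤ) ^ (3 * A + d ^ 2) := by
        have h4 : (X : ℤ) * (kap X t).2 = t.2 - r2 := by linarith
        rw [h4]
        calc |t.2 - r2| ≤ |t.2| + |r2| := abs_sub _ _
          _ ≤ A * (2 * (X : ℤ) ^ (d ^ 2)) + X := by
            refine add_le_add (a2.trans hsum) ?_
            rw [abs_of_nonneg (by omega)]; exact b2.2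
          _ ≤ 3 * (A : ℤ) * (X : ℤ) ^ (d ^ 2) := by linarith
          _ ≤ _ := hbig
      zify
      exact h3
  calc ∑ t ∈ S, g t
      = ∑ q ∈ S.image (kap X), ∑ t ∈ S.filter (fun t => kap X t = q), g t :=
        (Finset.sum_fiberwise_of_maps_to (fun t ht => mem_image_of_mem _ ht) _).symm
    _ ≤ ∑ q ∈ S.image (kap X), |CB| * (X : ℝ) ^ 2 := by
        refine Finset.sum_le_sum fun q hq => ?_
        refine (fib g hg0 X hX1 S q).trans ?_
        obtain ⟨hb1, hb2⟩ := hbase q hq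
        refine (hCB (X * q.1) (X * q.2) X hX1 hb1 hb2).trans ?_
        exact mul_le_mul_of_nonneg_right (le_abs_self CB) (by positivity)
    _ = |CB| * (((S.image (kap X)).card * X ^ 2 : ℕ) : ℝ) := by
        rw [Finset.sum_const, nsmul_eq_mul]; push_cast; ring
    _ ≤ |CB| * ((C2 * W ^ 2 : ℕ) : ℝ) := by
        refine mul_le_mul_of_nonneg_left ?_ (abs_nonneg _)
        exact_mod_cast hcount
    _ = _ := by push_cast; ring

end Pool.Agent.W481.RS
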